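import Pool.Agent.Helper38.FRX.Goals
import Pool.Agent.Helper22.FR.GEX

/-!
# Packet FRX-GEXC
-/

set_option autoImplicit false

namespace Pool.Agent.Helper57.FRX

open Finset Pool.Agent.Helper55.FR Pool.Agent.Helper38.FRX
open Pool.Agent.Helper22.FR (flip_flip flip_ne_O dif_eq)

theorem gexc (hunb : UnbStmt) (hglonc : GloncStmt) (href : RefStmt) (hdif : DifStmt) :
    GexcStmt := by
  intro V _ _ n m h lam g f0 B hC hh hh1 hg hlam hE hLig hG0 hmin hB htwo hbar hbig
  classical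
  have hex : ∃ k, ∃ (T I : Finset V) (Q : Finset (Finset V)) (ρ : V → Lab),
      BarC n m B T I Q ∧ (ρ = f0 ∨ ρ = Pool.Agent.Helper55.FR.flip ∘ f0) ∧
        (DifT ρ T I).card = k := by
    obtain ⟨T, I, Q, hb⟩ := hbar
    exact ⟨_, T, I, Q, f0, hb, Or.inl rfl, rfl⟩
  obtain ⟨T, I, Q, ρ, hb, hρ, hk⟩ := Nat.find_spec hex
  have hmin' : ∀ (T' I' : Finset V) (Q' : Finset (Finset V)) (ρ' : V → Lab),
      BarC n m B T' I' Q' → (ρ' = f0 ∨ ρ' = Pool.Agent.Helper55.FR.flip ∘ f0) →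
        (DifT ρ T I).card ≤ (DifT ρ' T' I').card := by
    intro T' I' Q' ρ' hb' hρ'
    rw [hk]
    exact Nat.find_min' hex ⟨T', I', Q', ρ', hb', hρ', rfl⟩
  have hO : ∀ x, ρ x ≠ Lab.O := by
    rcases hρ with rfl | rfl
    · exact hG0.noO
    · exact fun x => flip_ne_O (hG0.noO x)
  have hρ2 : Pool.Agent.Helper55.FR.flip ∘ ρ = f0 ∨
      Pool.Agent.Helper55.FR.flip ∘ ρ = Pool.Agent.Helper55.FR.flip ∘ f0 := by
    rcases hρ with rfl | rfl
    · exact Or.inr rfl
    · left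
      funext x
      exact flip_flip _
  have hO2 : ∀ x, (Pool.Agent.Helper55.FR.flip ∘ ρ) x ≠ Lab.O := fun x => flip_ne_O (hO x)
  obtain ⟨f, hfit, hglo, hdis⟩ := hglonc V n m h lam g B T I Q hC hh hh1 hg hlam hE hLig hB hb
    (htwo T I Q hb) (hbig T I Q hb)
  have e1 := dif_eq hfit hO
  have e2 := dif_eq hfit hO2
  refine ⟨f, ρ, hρ, hglo, hdis, ?_, ?_⟩
  · rw [e1]
    intro S hS hne hcl
    by_contra hcon
    push Not at hcon
    have hdisj : Disjoint S (Zs n m ρ) := by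
      rw [Finset.disjoint_left]
      exact hcon
    obtain ⟨hb', he⟩ := hunb V n m B 0 T I Q ρ S hC hB hb.1 hO hS hcl hdisj
    have h1 := hmin' _ _ _ ρ ⟨hb', fun K hK => hb.2 K (Finset.mem_filter.1 hK).1⟩ hρ
    rw [he] at h1
    have h2 : (DifT ρ T I \ S).card < (DifT ρ T I).card := by
      apply Finset.card_lt_card
      refine Finset.ssubset_iff_subset_ne.2 ⟨Finset.sdiff_subset, ?_⟩
      intro heq
      obtain ⟨x, hx⟩ := hne
      have h3 := hS hx
      rw [← heq] at h3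
      exact (Finset.mem_sdiff.1 h3).2 hx
    omega
  · have hR : Ref n m h g (Bad m f0).card ρ := by
      have := href V n m h g f0 hG0
      rcases hρ with rfl | rfl
      · exact this.1
      · exact this.2
    have hle := hmin f hglo
    rcases hdif V n m h g (Bad m f0).card f ρ hC hh hh1 hg hE hglo hR hle with h1 | h1
    · exact h1
    · have h2 : (Dif ρ f).card ≤ (Dif (Pool.Agent.Helper55.FR.flip ∘ ρ) f).card := by
        rw [e1, e2]
        exact hmin' T I Q _ hb hρ2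
      have h3 : ((Dif ρ f).card : ℝ) ≤ ((Dif (Pool.Agent.Helper55.FR.flip ∘ ρ) f).card : ℝ) := by
        exact_mod_cast h2
      nlinarith [mul_le_mul_of_nonneg_left h3 hh.le]

end Pool.Agent.Helper57.FRX
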